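import Mathlib

set_option autoImplicit false

/-!
# Extension of discrete valuations to a Galois extension, and the inertia generator
-/

open IsDedekindDomain

namespace GM5

section Ext

variable {A K L G : Type*} [CommRing A] [IsDomain A] [IsDiscreteValuationRing A]
  [Field K] [Algebra A K] [IsFractionRing A K] [Field L] [Algebra K L] [Algebra A L]
  [IsScalarTower A K L] [Group G] [Finite G] [MulSemiringAction G L] [IsGaloisGroup G K L]

open scoped Pointwise in
/-- The raw statement: a prime of the integral closure, its valuation, and its inertia group. -/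
theorem ext_raw [CharZero K] [Algebra ℚ A] :
    ∃ (w : Valuation L (WithZero (Multiplicative ℤ))) (e : ℕ) (I : Subgroup G), 0 < e ∧
      Function.Surjective w ∧
      (∀ x : K, (IsDiscreteValuationRing.maximalIdeal A).valuation K x ^ e = w (algebraMap K L x)) ∧
      Nat.card I = e ∧ (∀ g ∈ I, ∀ x : L, w (g • x) = w x) ∧
      (∀ g ∈ I, ∀ x : L, w x = 1 → w (g • x - x) < 1) := by
  classical
  have hfd : FiniteDimensional K L := IsGaloisGroup.finiteDimensional G K L
  have hgal : IsGalois K L := IsGaloisGroup.isGalois G K L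
  have hcomm : SMulCommClass G K L := IsGaloisGroup.commutes
  have hcommA : SMulCommClass G A L := ⟨fun g a x => by
    rw [← algebraMap_smul K a x, ← algebraMap_smul K a (g • x), smul_comm]⟩
  let B := integralClosure A L
  have hBfrac : IsFractionRing B L := integralClosure.isFractionRing_of_finite_extension K L
  have hBded : IsDedekindDomain B := integralClosure.isDedekindDomain A K L
  have hBfin : Module.Finite A B := IsIntegralClosure.finite A K L B
  have hinjAL : Function.Injective (algebraMap A L) := by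
    rw [IsScalarTower.algebraMap_eq A K L]
    exact (algebraMap K L).injective.comp (IsFractionRing.injective A K)
  have hfaith : FaithfulSMul A B := by
    rw [faithfulSMul_iff_algebraMap_injective]
    intro a b hab
    apply hinjAL
    have := congrArg (algebraMap B L) hab
    simpa [← IsScalarTower.algebraMap_apply] using this
  have htf : Module.IsTorsionFree A B := inferInstance
  have hdist : SMulDistribClass G B L := ⟨fun g b x => by
    rw [Algebra.smul_def, Algebra.smul_def, smul_mul']; rfl⟩
  have hGB : IsGaloisGroup G A B := IsGaloisGroup.of_isFractionRing G A B K L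
  obtain ⟨P, hPmax, hPover⟩ := Ideal.exists_maximal_ideal_liesOver_of_isIntegral
    (R := A) (S := B) (IsLocalRing.maximalIdeal A)
  have hPprime : P.IsPrime := hPmax.isPrime
  have hp0 : IsLocalRing.maximalIdeal A ≠ ⊥ := (IsDiscreteValuationRing.maximalIdeal A).ne_bot
  have hP0 : P ≠ ⊥ := Ideal.ne_bot_of_liesOver_of_ne_bot hp0 P
  let w₀ : HeightOneSpectrum B := ⟨P, hPprime, hP0⟩
  have hover : w₀.asIdeal.LiesOver (IsDiscreteValuationRing.maximalIdeal A).asIdeal := hPover
  let e := (IsLocalRing.maximalIdeal A).ramificationIdx' P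
  have he0 : 0 < e := Nat.pos_of_ne_zero
    (Ideal.IsDedekindDomain.ramificationIdx'_ne_zero_of_liesOver P hp0)
  have hres : Nontrivial (IsLocalRing.maximalIdeal A).ResidueField := inferInstance
  have hcz : CharZero (IsLocalRing.maximalIdeal A).ResidueField := by
    let : Algebra ℚ (IsLocalRing.maximalIdeal A).ResidueField :=
      ((algebraMap A (IsLocalRing.maximalIdeal A).ResidueField).comp (algebraMap ℚ A)).toAlgebra
    exact algebraRat.charZero _
  have hperf : PerfectField (IsLocalRing.maximalIdeal A).ResidueField := inferInstance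
  have hcard : Nat.card (P.inertia G) = e := by
    rw [Ideal.card_inertia_eq_ramificationIdxIn (IsLocalRing.maximalIdeal A) P,
      Ideal.ramificationIdxIn_eq_ramificationIdx (IsLocalRing.maximalIdeal A) P G,
      ← Ideal.ramificationIdx'_eq_ramificationIdx (IsLocalRing.maximalIdeal A) P hp0]
  have hstab : ∀ g ∈ P.inertia G, g • P = P := fun g hg =>
    MulAction.mem_stabilizer_iff.mp (Ideal.inertia_le_stabilizer P hg)
  have hint : ∀ g ∈ P.inertia G, ∀ b : B, w₀.intValuation (g • b) = w₀.intValuation b := by
    intro g hg b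
    have hn : ∀ n : ℕ, g • b ∈ P ^ n ↔ b ∈ P ^ n := by
      intro n
      have h1 : g • (P ^ n) = P ^ n := by
        rw [smul_pow', hstab g hg]
      conv_lhs => rw [← h1]
      exact Ideal.smul_mem_pointwise_smul_iff
    rcases eq_or_ne b 0 with rfl | hb
    · simp
    have hgb : g • b ≠ 0 := fun h => hb ((smul_eq_zero_iff_eq g).mp h)
    have key : ∀ c d : B, c ≠ 0 → (∀ n : ℕ, c ∈ P ^ n → d ∈ P ^ n) →
        w₀.intValuation d ≤ w₀.intValuation c := by
      intro c d hc h
      have h1 := w₀.intValuation_eq_exp_neg_multiplicity hc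
      rw [h1, w₀.intValuation_le_pow_iff_mem]
      apply h
      have h2 := (w₀.intValuation_le_pow_iff_mem c (multiplicity w₀.asIdeal (Ideal.span {c}))).mp
        h1.le
      exact h2
    exact le_antisymm (key b (g • b) hb fun n h => (hn n).mpr h)
      (key (g • b) b hgb fun n h => (hn n).mp h)
  have hval : ∀ g ∈ P.inertia G, ∀ x : L, w₀.valuation L (g • x) = w₀.valuation L x := by
    intro g hg x
    obtain ⟨a, b, hb, rfl⟩ := IsFractionRing.div_surjective (A := B) x
    have h1 : g • (algebraMap B L a / algebraMap B L b)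
        = algebraMap B L (g • a) / algebraMap B L (g • b) := by
      rw [smul_div₀']; rfl
    rw [h1, map_div₀, map_div₀, HeightOneSpectrum.valuation_of_algebraMap,
      HeightOneSpectrum.valuation_of_algebraMap, HeightOneSpectrum.valuation_of_algebraMap,
      HeightOneSpectrum.valuation_of_algebraMap, hint g hg, hint g hg]
  refine ⟨w₀.valuation L, e, P.inertia G, he0, w₀.valuation_surjective L, ?_, hcard, ?_, ?_⟩
  · intro x
    exact HeightOneSpectrum.valuation_liesOver L (IsDiscreteValuationRing.maximalIdeal A) w₀ x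
  · exact hval
  · intro g hg x hx
    obtain ⟨b, hb⟩ := w₀.exists_valuation_sub_lt_of_integer (K := L) hx.le 1
    have h1 : w₀.valuation L (algebraMap B L b - x) < 1 := by simpa using hb
    have h2 : w₀.valuation L (algebraMap B L (g • b - b)) < 1 :=
      (w₀.valuation_lt_one_iff_mem (K := L) _).mpr (hg b)
    have h3 : w₀.valuation L (g • (x - algebraMap B L b)) < 1 := by
      rw [hval g hg, Valuation.map_sub_swap]; exact h1
    have h4 : g • x - x = g • (x - algebraMap B L b) + (algebraMap B L (g • b - b) +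
        (algebraMap B L b - x)) := by
      have h5 : algebraMap B L (g • b) = g • algebraMap B L b := rfl
      rw [smul_sub, map_sub, h5]; ring
    rw [h4]
    exact Valuation.map_add_lt _ h3 (Valuation.map_add_lt _ h2 h1)

end Ext

section Cyc

variable {L G : Type*} [Field L] [Algebra ℂ L] [Group G] [Finite G] [MulSemiringAction G L]
  [FaithfulSMul G L] [SMulCommClass G ℂ L]

/-- The tame character: the inertia group is cyclic, a generator acts on `L ^*` through a primitive
root of unity. -/
theorem cyc_raw (w : Valuation L (WithZero (Multiplicative ℤ))) (e : ℕ) (I : Subgroup G)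
    (he : 0 < e) (hw : Function.Surjective w) (hwC : ∀ c : ℂ, c ≠ 0 → w (algebraMap ℂ L c) = 1)
    (hcard : Nat.card I = e) (hinv : ∀ g ∈ I, ∀ x : L, w (g • x) = w x)
    (htriv : ∀ g ∈ I, ∀ x : L, w x = 1 → w (g • x - x) < 1) :
    ∃ g ∈ I, ∃ ζ : ℂ, IsPrimitiveRoot ζ e ∧ ∀ x : L, x ≠ 0 →
      w (g • x / x - algebraMap ℂ L (ζ ^ (- WithZero.log (w x)))) < 1 := by
  classical
  obtain ⟨π, hπ⟩ := hw (WithZero.exp (-1))
  have hπ0 : π ≠ 0 := by
    rintro rfl
    rw [map_zero] at hπ
    exact WithZero.exp_ne_zero hπ.symm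
  let V := w.valuationSubring
  let res : V →+* IsLocalRing.ResidueField V := IsLocalRing.residue V
  have hres0 : ∀ x : V, res x = 0 ↔ w (x : L) < 1 := by
    intro x
    rw [IsLocalRing.residue_eq_zero_iff, ← Valuation.mem_maximalIdeal_iff]
  have hc : ∀ g ∈ I, w (g • π / π) = 1 := by
    intro g hg
    rw [map_div₀, hinv g hg, div_self]
    rw [hπ]; exact WithZero.exp_ne_zero
  let c : I → V := fun g => ⟨g.1 • π / π, (hc g.1 g.2).le⟩
  have hgπ : ∀ g : G, g • π ≠ 0 := fun g h => hπ0 ((smul_eq_zero_iff_eq g).mp h)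
  let χ : I →* IsLocalRing.ResidueField V :=
    { toFun := fun g => res (c g)
      map_one' := by
        have : c 1 = 1 := by
          apply Subtype.ext
          simp [c, div_self hπ0]
        rw [this, map_one]
      map_mul' := by
        intro g h
        rw [← map_mul, ← sub_eq_zero, ← map_sub, hres0]
        have h1 : ((c (g * h) - c g * c h : V) : L)
            = (g.1 • π / π) * (g.1 • (h.1 • π / π) - h.1 • π / π) := by
          show (g.1 * h.1) • π / π - g.1 • π / π * (h.1 • π / π) = _
          rw [mul_smul, smul_div₀', mul_sub]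
          have := hgπ g.1
          field_simp
        rw [h1, map_mul, hc g.1 g.2, one_mul]
        exact htriv g.1 g.2 _ (hc h.1 h.2) }
  -- powers of congruent units are congruent
  have hpow : ∀ a b : L, w a = 1 → w b = 1 → w (a - b) < 1 → ∀ k : ℕ, w (a ^ k - b ^ k) < 1 := by
    intro a b ha hb hab k
    induction k with
    | zero => simp
    | succ k ih =>
      have : a ^ (k + 1) - b ^ (k + 1) = a * (a ^ k - b ^ k) + (a - b) * b ^ k := by ring
      rw [this]
      refine Valuation.map_add_lt _ ?_ ?_
      · rw [map_mul, ha, one_mul]; exact ih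
      · rw [map_mul, map_pow, hb, one_pow, mul_one]; exact hab
  have hzpow : ∀ a b : L, w a = 1 → w b = 1 → w (a - b) < 1 → ∀ k : ℤ,
      w (a ^ k - b ^ k) < 1 := by
    intro a b ha hb hab k
    have ha0 : a ≠ 0 := by rintro rfl; simp at ha
    have hb0 : b ≠ 0 := by rintro rfl; simp at hb
    obtain ⟨n, rfl | rfl⟩ := k.eq_nat_or_neg
    · simpa using hpow a b ha hb hab n
    · have : a ^ (-(n : ℤ)) - b ^ (-(n : ℤ)) = (a ^ n * b ^ n)⁻¹ * (b ^ n - a ^ n) := by
        rw [zpow_neg, zpow_neg, zpow_natCast, zpow_natCast]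
        field_simp
      rw [this, map_mul, map_inv₀, map_mul, map_pow, map_pow, ha, hb, one_pow, mul_one,
        inv_one, one_mul, Valuation.map_sub_swap]
      exact hpow a b ha hb hab n
  have hdecomp : ∀ x : L, x ≠ 0 → ∃ u : L, w u = 1 ∧ x = u * π ^ (- WithZero.log (w x)) := by
    intro x hx
    have hwx : w x ≠ 0 := (Valuation.ne_zero_iff _).mpr hx
    refine ⟨x * (π ^ (- WithZero.log (w x)))⁻¹, ?_, ?_⟩
    · rw [map_mul, map_inv₀, map_zpow₀, hπ, ← WithZero.exp_zsmul, smul_eq_mul, neg_mul_neg, mul_one,
        WithZero.exp_log hwx, mul_inv_cancel₀ hwx]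
    · rw [inv_mul_cancel_right₀]
      exact zpow_ne_zero _ hπ0
  have hA : ∀ g ∈ I, ∀ x : L, x ≠ 0 →
      w (g • x / x - (g • π / π) ^ (- WithZero.log (w x))) < 1 := by
    intro g hg x hx
    obtain ⟨u, hu, hxu⟩ := hdecomp x hx
    set k : ℤ := - WithZero.log (w x) with hk
    have hu0 : u ≠ 0 := by rintro rfl; simp at hu
    have hgπk : g • (π ^ k) = (g • π) ^ k := smul_zpow₀' g π k
    have h1 : g • x / x - (g • π / π) ^ k = (g • u - u) * (u⁻¹ * (g • π / π) ^ k) := by
      rw [hxu, smul_mul', hgπk, div_zpow]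
      have := zpow_ne_zero k hπ0
      field_simp
    rw [h1, map_mul, map_mul, map_inv₀, map_zpow₀, hc g hg, hu, one_zpow, inv_one, mul_one, mul_one]
    exact htriv g hg u hu
  have hwnat : ∀ m : ℕ, m ≠ 0 → w (m : L) = 1 := by
    intro m hm
    have := hwC (m : ℂ) (by exact_mod_cast hm)
    simpa using this
  have hker : ∀ g ∈ I, w (g • π / π - 1) < 1 → g = 1 := by
    intro g hg h1
    by_contra hg1
    have hB : ∀ x : L, x ≠ 0 → w (g • x - x) < w x := by
      intro x hx
      have h2 := hA g hg x hx
      have h3 := hzpow _ _ (hc g hg) (map_one w) h1 (- WithZero.log (w x))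
      rw [one_zpow] at h3
      have h4 : w (g • x / x - 1) < 1 := by
        have : g • x / x - 1 = (g • x / x - (g • π / π) ^ (- WithZero.log (w x))) +
          ((g • π / π) ^ (- WithZero.log (w x)) - 1) := by ring
        rw [this]
        exact Valuation.map_add_lt _ h2 h3
      have h5 : g • x - x = (g • x / x - 1) * x := by field_simp
      have hwx : 0 < w x := zero_lt_iff.mpr ((Valuation.ne_zero_iff _).mpr hx)
      rw [h5, map_mul]
      calc w (g • x / x - 1) * w x < 1 * w x := by
            exact mul_lt_mul_of_pos_right h4 hwx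
        _ = w x := one_mul _
    obtain ⟨x, hx⟩ : ∃ x : L, g • x ≠ x := by
      by_contra hcon
      push Not at hcon
      exact hg1 (FaithfulSMul.eq_of_smul_eq_smul (M := G) (α := L) fun x => by
        rw [hcon x, one_smul])
    obtain ⟨y, hy⟩ : ∃ y, y = g • x - x := ⟨_, rfl⟩
    have hy0 : y ≠ 0 := by rw [hy]; exact sub_ne_zero.mpr hx
    have hgi : ∀ i : ℕ, g ^ i ∈ I := fun i => I.pow_mem hg i
    have hC : ∀ i : ℕ, w (g ^ i • y - y) < w y := by
      intro i
      induction i with
      | zero => simpa using zero_lt_iff.mpr ((Valuation.ne_zero_iff _).mpr hy0)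
      | succ i ih =>
        have : g ^ (i + 1) • y - y = g • (g ^ i • y - y) + (g • y - y) := by
          rw [pow_succ', mul_smul, smul_sub]; ring
        rw [this]
        refine Valuation.map_add_lt _ ?_ (hB y hy0)
        rw [hinv g hg]; exact ih
    have hsum : ∀ m : ℕ, ∑ i ∈ Finset.range m, g ^ i • y = g ^ m • x - x := by
      intro m
      induction m with
      | zero => simp
      | succ m ih =>
        rw [Finset.sum_range_succ, ih, hy, smul_sub, ← mul_smul, ← pow_succ]
        ring
    have h0 := hsum (orderOf g)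
    rw [pow_orderOf_eq_one, one_smul, sub_self] at h0
    have h6 : ((orderOf g : ℕ) : L) * y = - ∑ i ∈ Finset.range (orderOf g), (g ^ i • y - y) := by
      rw [Finset.sum_sub_distrib, h0]
      simp
    have h7 : w (((orderOf g : ℕ) : L) * y) = w y := by
      rw [map_mul, hwnat _ (orderOf_pos g).ne', one_mul]
    have h8 : w (((orderOf g : ℕ) : L) * y) < w y := by
      rw [h6, Valuation.map_neg]
      exact Valuation.map_sum_lt _ ((Valuation.ne_zero_iff _).mpr hy0) fun i _ => hC i
    rw [h7] at h8
    exact lt_irrefl _ h8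
  have hinj : Function.Injective χ := by
    rw [injective_iff_map_eq_one]
    intro g hg
    apply Subtype.ext
    apply hker g.1 g.2
    have h1 : res (c g - 1) = 0 := by
      rw [map_sub, map_one, sub_eq_zero]; exact hg
    exact (hres0 _).mp h1
  have hcyc : IsCyclic I := isCyclic_of_injective_ringHom χ hinj
  obtain ⟨g, hg⟩ := hcyc.exists_generator
  have hord : orderOf g = e := by rw [orderOf_eq_card_of_forall_mem_zpowers hg, hcard]
  have hprim : IsPrimitiveRoot (χ g) e := by
    rw [← hord, ← orderOf_injective χ hinj g]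
    exact IsPrimitiveRoot.orderOf _
  have heC : NeZero (e : ℂ) := ⟨by exact_mod_cast he.ne'⟩
  let ι : ℂ →+* V := 
    { toFun := fun z => ⟨algebraMap ℂ L z, by
        show w (algebraMap ℂ L z) ≤ 1
        rcases eq_or_ne z 0 with rfl | hz
        · simp
        · exact (hwC z hz).le⟩
      map_one' := Subtype.ext (map_one _)
      map_mul' := fun a b => Subtype.ext (map_mul _ _ _)
      map_zero' := Subtype.ext (map_zero _)
      map_add' := fun a b => Subtype.ext (map_add _ _ _) }
  have hζ0 := Complex.isPrimitiveRoot_exp e he.ne'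
  set ζ0 := Complex.exp (2 * Real.pi * Complex.I / e) with hζ0def
  have hprim2 : IsPrimitiveRoot (res (ι ζ0)) e := hζ0.map_of_injective (f := res.comp ι)
    (RingHom.injective _)
  have : NeZero e := ⟨he.ne'⟩
  obtain ⟨i, hi, hi2⟩ := hprim2.eq_pow_of_pow_eq_one hprim.pow_eq_one
  have hζ : IsPrimitiveRoot (ζ0 ^ i) e := by
    refine IsPrimitiveRoot.of_map_of_injective (f := res.comp ι) ?_ (RingHom.injective _)
    rw [map_pow]
    show IsPrimitiveRoot ((res (ι ζ0)) ^ i) e
    rw [hi2]; exact hprim
  refine ⟨g.1, g.2, ζ0 ^ i, hζ, fun x hx => ?_⟩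
  have hz0 : ζ0 ^ i ≠ 0 := hζ.ne_zero he.ne'
  have h1 : w (g.1 • π / π - algebraMap ℂ L (ζ0 ^ i)) < 1 := by
    have h2 : res (c g - ι (ζ0 ^ i)) = 0 := by
      rw [map_sub, map_pow, map_pow, hi2, sub_eq_zero]; rfl
    exact (hres0 _).mp h2
  have h2 := hzpow _ _ (hc g.1 g.2) (hwC _ hz0) h1 (- WithZero.log (w x))
  have h3 : g.1 • x / x - algebraMap ℂ L ((ζ0 ^ i) ^ (- WithZero.log (w x))) =
      (g.1 • x / x - (g.1 • π / π) ^ (- WithZero.log (w x))) +
      ((g.1 • π / π) ^ (- WithZero.log (w x)) -
        (algebraMap ℂ L (ζ0 ^ i)) ^ (- WithZero.log (w x))) := by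
    rw [map_zpow₀]; ring
  rw [h3]
  exact Valuation.map_add_lt _ (hA g.1 g.2 x hx) h2

end Cyc

end GM5
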